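import Mathlib
import Pool.Agent.Helper34.ZP.P5
import Pool.Agent.Helper34.ZP.P5c

/-!
# The zero-one law for all powers: the analytic part with a rate
-/

namespace Pool.Agent.Helper50.ZP

open Filter Topology Pool.Agent.Helper34.ZP

lemma rate_of_eventually {a c : ℕ → ℕ} (ha : ∀ l, 1 ≤ a l) {C L : ℕ}
    (h : ∀ l ≥ L, c l * Nat.log 2 l ≤ C * a l) : ∃ C : ℕ, ∀ l, c l * Nat.log 2 l ≤ C * a l := by
  refine ⟨C + ∑ l ∈ Finset.range L, c l * Nat.log 2 l, fun l => ?_⟩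
  rcases lt_or_ge l L with hl | hl
  · have h1 : c l * Nat.log 2 l ≤ ∑ l ∈ Finset.range L, c l * Nat.log 2 l :=
      Finset.single_le_sum (f := fun l => c l * Nat.log 2 l) (fun _ _ => Nat.zero_le _)
        (Finset.mem_range.2 hl)
    calc c l * Nat.log 2 l ≤ (C + ∑ l ∈ Finset.range L, c l * Nat.log 2 l) * 1 := by omega
      _ ≤ _ := Nat.mul_le_mul_left _ (ha l)
  · exact (h l hl).trans (Nat.mul_le_mul_right _ (Nat.le_add_right _ _))

lemma one_le_of_growth {a : ℕ → ℕ} {b d : ℕ} (hb : 1 ≤ b)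
    (hgr : ∀ l, b ^ (2 * l) ≤ a l * (l + 2) ^ d) (l : ℕ) : 1 ≤ a l := by
  have h1 : 1 ≤ a l * (l + 2) ^ d := (Nat.one_le_pow _ _ hb).trans (hgr l)
  exact Nat.pos_of_ne_zero fun h0 => by rw [h0, zero_mul] at h1; exact absurd h1 (by norm_num)

/-- the case of a non-nilpotent null element, with a rate -/
theorem ana_A_rate {a c : ℕ → ℕ} {b d s : ℕ} (hb : 1 ≤ b) (hs : 1 ≤ s) (hc : ∀ l, 1 ≤ c l)
    (hconv : ∀ l, c (l + 1) ^ 2 ≤ c l * c (l + 2)) (hgr : ∀ l, b ^ (2 * l) ≤ a l * (l + 2) ^ d)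
    (h : ∀ l, c (l + s) ≤ (b ^ (2 * s) - 1) * c l) :
    ∃ C : ℕ, ∀ l, c l * Nat.log 2 l ≤ C * a l := by
  have hgr' : ∀ l, b ^ (2 * l) ≤ (a l / (l + 2) + 1) * (l + 2) ^ (d + 1) := by
    intro l
    refine (hgr l).trans ?_
    rw [pow_succ, ← mul_assoc, mul_right_comm]
    refine Nat.mul_le_mul_right _ ?_
    have h1 : a l < (l + 2) * (a l / (l + 2) + 1) := Nat.lt_mul_div_succ (a l) (by omega)
    rw [mul_comm]
    exact h1.le
  obtain ⟨L, hL⟩ := ana_A (a := fun l => a l / (l + 2) + 1) (d := d + 1) hb hs hc hconv hgr' h 2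
  refine rate_of_eventually (one_le_of_growth hb hgr) (C := 1) (L := L) fun l hl => ?_
  have h1 : 2 * c l ≤ a l / (l + 2) + 1 := hL l hl
  have h2 : c l ≤ a l / (l + 2) := by have := hc l; omega
  rw [one_mul]
  calc c l * Nat.log 2 l ≤ c l * (l + 2) :=
        Nat.mul_le_mul_left _ ((Nat.log_le_self 2 l).trans (Nat.le_add_right _ _))
    _ ≤ a l := (Nat.le_div_iff_mul_le (by omega)).1 h2

/-- upper bound by the last quotient -/
lemma le_ratio_pow {c : ℕ → ℕ} (hc : ∀ l, 1 ≤ c l)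
    (hconv : ∀ l, c (l + 1) ^ 2 ≤ c l * c (l + 2)) (l : ℕ) :
    (c l : ℝ) ≤ ((c (l + 1) : ℝ) / c l) ^ l * c 0 := by
  set R : ℝ := (c (l + 1) : ℝ) / c l with hR
  have hR0 : 0 ≤ R := by positivity
  have key : ∀ j ≤ l, (c j : ℝ) ≤ R ^ j * c 0 := by
    intro j
    induction j with
    | zero => intro _; simp
    | succ j ih =>
      intro hj
      have h0 : (0 : ℝ) < c j := by exact_mod_cast hc j
      have h1 : (c (j + 1) : ℝ) / c j ≤ R := P5c_ratio_mono hc hconv (by omega : j ≤ l)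
      rw [div_le_iff₀ h0] at h1
      calc (c (j + 1) : ℝ) ≤ R * c j := h1
        _ ≤ R * (R ^ j * c 0) := mul_le_mul_of_nonneg_left (ih (by omega)) hR0
        _ = R ^ (j + 1) * c 0 := by ring
  exact key l le_rfl

/-- the number of layers is small against `l` -/
lemma small_loss {b s c0 d : ℕ} (hb : 1 ≤ b) (hs : 1 ≤ s) {l k0 : ℕ}
    (hl : (32 * s * (c0 + 10 * (d + 1))) ^ 4 ≤ l) (hl1 : 1 ≤ l)
    (hk : (2 * b ^ (4 * s)) ^ k0 ≤ l) (hc0 : 1 ≤ c0) :
    (b : ℝ) ^ (2 * s * k0) * (s * k0 *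
      ((Real.log c0 + (d + 1) * Real.log (l + 2)) / l)) ≤ 1 / 2 := by
  have hlr : (1 : ℝ) ≤ l := by exact_mod_cast hl1
  have hl0 : (0 : ℝ) < l := by linarith
  set y : ℝ := (l : ℝ) ^ ((1 : ℝ) / 8) with hy
  have hy1 : 1 ≤ y := Real.one_le_rpow hlr (by norm_num)
  have hy0 : 0 < y := by linarith
  have hy8 : y ^ 8 = l := by
    rw [hy, ← Real.rpow_natCast, ← Real.rpow_mul hl0.le]
    norm_num
  have hlogl : Real.log l ≤ 8 * y := by
    rw [← hy8, Real.log_pow]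
    have := Real.log_le_sub_one_of_pos hy0
    push_cast
    linarith
  -- `k0 ≤ 16 y`
  have hk1 : (k0 : ℝ) ≤ 16 * y := by
    have h1 : (2 : ℝ) ^ k0 ≤ l := by
      have h2 : 2 ^ k0 ≤ (2 * b ^ (4 * s)) ^ k0 :=
        Nat.pow_le_pow_left (Nat.le_mul_of_pos_right _ (Nat.one_le_pow _ _ hb)) _
      exact_mod_cast h2.trans hk
    have h3 : (k0 : ℝ) * Real.log 2 ≤ Real.log l := by
      rw [← Real.log_pow]
      exact Real.log_le_log (by positivity) h1
    have h4 : (1 / 2 : ℝ) ≤ Real.log 2 := by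
      have := Real.log_two_gt_d9
      linarith
    nlinarith [Nat.cast_nonneg (α := ℝ) k0]
  -- `b ^ (2 s k0) ≤ y ^ 4`
  have hb4 : (b : ℝ) ^ (2 * s * k0) ≤ y ^ 4 := by
    have h1 : ((b : ℝ) ^ (2 * s * k0)) ^ 2 ≤ (y ^ 4) ^ 2 := by
      rw [← pow_mul, ← pow_mul]
      norm_num
      rw [hy8]
      have h2 : (b ^ (4 * s)) ^ k0 ≤ (2 * b ^ (4 * s)) ^ k0 :=
        Nat.pow_le_pow_left (Nat.le_mul_of_pos_left _ (by norm_num)) _
      have h3 : (b : ℝ) ^ (2 * s * k0 * 2) = (((b ^ (4 * s)) ^ k0 : ℕ) : ℝ) := by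
        push_cast
        rw [← pow_mul]
        congr 1
        ring
      rw [h3]
      exact_mod_cast h2.trans hk
    exact le_of_sq_le_sq h1 (by positivity)
  -- the logarithms
  have hE : Real.log c0 + (d + 1) * Real.log (l + 2) ≤ (c0 + 10 * (d + 1)) * y := by
    have h1 : Real.log c0 ≤ c0 := by
      have hc : (0 : ℝ) < c0 := by exact_mod_cast hc0
      have := Real.log_le_sub_one_of_pos hc
      linarith
    have h2 : Real.log ((l : ℝ) + 2) ≤ 10 * y := by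
      have h3 : Real.log ((l : ℝ) + 2) ≤ Real.log (3 * l) :=
        Real.log_le_log (by positivity) (by linarith)
      have h4 : Real.log (3 * (l : ℝ)) = Real.log 3 + Real.log l :=
        Real.log_mul (by norm_num) hl0.ne'
      have h5 : Real.log 3 ≤ 2 := by
        have := Real.log_le_sub_one_of_pos (by norm_num : (0 : ℝ) < 3)
        linarith
      linarith
    have hd : (0 : ℝ) ≤ (d : ℝ) + 1 := by positivity
    have hc : (0 : ℝ) ≤ c0 := Nat.cast_nonneg _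
    nlinarith [mul_le_mul_of_nonneg_left h2 hd, mul_le_mul_of_nonneg_left hy1 hc]
  have hE0 : 0 ≤ Real.log c0 + (d + 1) * Real.log (l + 2) := by
    have h1 : 0 ≤ Real.log (c0 : ℝ) := Real.log_natCast_nonneg _
    have h2 : 0 ≤ Real.log ((l : ℝ) + 2) := Real.log_nonneg (by linarith)
    positivity
  -- `y ^ 2` is large
  have hy2 : 32 * (s : ℝ) * (c0 + 10 * (d + 1)) ≤ y ^ 2 := by
    have h1 : (32 * (s : ℝ) * (c0 + 10 * (d + 1))) ^ 4 ≤ (y ^ 2) ^ 4 := by
      rw [← pow_mul]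
      norm_num
      rw [hy8]
      exact_mod_cast hl
    exact le_of_pow_le_pow_left₀ (by norm_num) (by positivity) h1
  set E : ℝ := c0 + 10 * (d + 1) with hEdef
  set A : ℝ := Real.log c0 + (d + 1) * Real.log (l + 2) with hA
  have hsk : (0 : ℝ) ≤ s * k0 * (A / l) := by positivity
  calc (b : ℝ) ^ (2 * s * k0) * (s * k0 * (A / l))
      ≤ y ^ 4 * (s * (16 * y) * (E * y / l)) := by
        apply mul_le_mul hb4 _ hsk (by positivity)
        gcongr
    _ = 16 * s * E * y ^ 6 / y ^ 8 := by rw [hy8]; ring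
    _ = 16 * s * E / y ^ 2 := by
        field_simp
    _ ≤ 1 / 2 := by
        rw [div_le_iff₀ (by positivity)]
        linarith

/-- the case in which all null elements are nilpotent, with a rate -/
theorem ana_B_rate {a c : ℕ → ℕ} {b d s : ℕ} (hb : 1 ≤ b) (hs : 1 ≤ s) (hc : ∀ l, 1 ≤ c l)
    (hconv : ∀ l, c (l + 1) ^ 2 ≤ c l * c (l + 2)) (hgr : ∀ l, b ^ (2 * l) ≤ a l * (l + 2) ^ d)
    (h : ∀ k0 l, c l + ∑ k ∈ Finset.range k0, c (l + s * (k + 1)) ≤
      a l + ∑ k ∈ Finset.range k0, (b ^ (2 * s * (k + 1)) - 1) * c l) :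
    ∃ C : ℕ, ∀ l, c l * Nat.log 2 l ≤ C * a l := by
  set Q : ℕ := 2 * b ^ (4 * s) with hQ
  have hQ2 : 2 ≤ Q := Nat.le_mul_of_pos_right _ (Nat.one_le_pow _ _ hb)
  set T : ℕ := Nat.log 2 Q + 1 with hT
  have hlog : ∀ l, 1 ≤ l → Nat.log 2 l ≤ T * (Nat.log Q l + 1) := by
    intro l hl
    have h1 : l < Q ^ (Nat.log Q l + 1) := Nat.lt_pow_succ_log_self (by omega) l
    have h2 : Q ≤ 2 ^ T := (Nat.lt_pow_succ_log_self one_lt_two Q).le
    have h3 : l < 2 ^ (T * (Nat.log Q l + 1)) := by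
      rw [pow_mul]
      exact h1.trans_le (Nat.pow_le_pow_left h2 _)
    exact (Nat.log_lt_of_lt_pow (by omega) h3).le
  set L0 : ℕ := (32 * s * (c 0 + 10 * (d + 1))) ^ 4 + 1 with hL0
  refine rate_of_eventually (one_le_of_growth hb hgr) (C := 2 * T) (L := L0) fun l hl => ?_
  have hl1 : 1 ≤ l := by omega
  suffices key : c l * (Nat.log Q l + 1) ≤ 2 * a l by
    calc c l * Nat.log 2 l ≤ c l * (T * (Nat.log Q l + 1)) := Nat.mul_le_mul_left _ (hlog l hl1)
      _ = T * (c l * (Nat.log Q l + 1)) := by ring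
      _ ≤ T * (2 * a l) := Nat.mul_le_mul_left _ key
      _ = 2 * T * a l := by ring
  set k0 := Nat.log Q l with hk0
  have hk0l : k0 ≤ l := Nat.log_le_self _ _
  rcases le_or_gt (c l * (l + 2)) (a l) with h1 | h1
  · calc c l * (k0 + 1) ≤ c l * (l + 2) := Nat.mul_le_mul_left _ (by omega)
      _ ≤ a l := h1
      _ ≤ 2 * a l := by omega
  -- now the quotient at `l` is almost `b ^ 2`
  have hcl : (0 : ℝ) < c l := by exact_mod_cast hc l
  have hc0 : (0 : ℝ) < c 0 := by exact_mod_cast hc 0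
  have hlr : (1 : ℝ) ≤ l := by exact_mod_cast hl1
  have hl0 : (0 : ℝ) < l := by linarith
  set R : ℝ := (c (l + 1) : ℝ) / c l with hR
  have hR0 : 0 < R := by
    have : (0 : ℝ) < c (l + 1) := by exact_mod_cast hc (l + 1)
    positivity
  have hbr : (0 : ℝ) < (b : ℝ) ^ 2 := by
    have : (0 : ℝ) < b := by exact_mod_cast hb
    positivity
  have h2 : ((b : ℝ) ^ 2) ^ l ≤ R ^ l * (c 0 * ((l : ℝ) + 2) ^ (d + 1)) := by
    have h3 : b ^ (2 * l) ≤ c l * (l + 2) ^ (d + 1) := by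
      calc b ^ (2 * l) ≤ a l * (l + 2) ^ d := hgr l
        _ ≤ c l * (l + 2) * (l + 2) ^ d := Nat.mul_le_mul_right _ h1.le
        _ = c l * (l + 2) ^ (d + 1) := by ring
    have h4 : ((b : ℝ) ^ 2) ^ l ≤ c l * ((l : ℝ) + 2) ^ (d + 1) := by
      rw [← pow_mul]
      exact_mod_cast h3
    calc ((b : ℝ) ^ 2) ^ l ≤ c l * ((l : ℝ) + 2) ^ (d + 1) := h4
      _ ≤ (R ^ l * c 0) * ((l : ℝ) + 2) ^ (d + 1) :=
          mul_le_mul_of_nonneg_right (le_ratio_pow hc hconv l) (by positivity)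
      _ = R ^ l * (c 0 * ((l : ℝ) + 2) ^ (d + 1)) := by ring
  set x : ℝ := (b : ℝ) ^ 2 / R with hx
  have hx0 : 0 < x := by positivity
  have hxR : x * R = (b : ℝ) ^ 2 := div_mul_cancel₀ _ hR0.ne'
  set A : ℝ := Real.log (c 0) + (d + 1) * Real.log (l + 2) with hA
  have hA0 : 0 ≤ A := by
    have h1 : 0 ≤ Real.log (c 0 : ℝ) := Real.log_natCast_nonneg _
    have h2 : 0 ≤ Real.log ((l : ℝ) + 2) := Real.log_nonneg (by linarith)
    positivity
  have hlogx : Real.log x ≤ A / l := by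
    have h3 : x ^ l ≤ c 0 * ((l : ℝ) + 2) ^ (d + 1) := by
      rw [← hxR, mul_pow, mul_comm] at h2
      exact le_of_mul_le_mul_left h2 (pow_pos hR0 l)
    have h4 : (l : ℝ) * Real.log x ≤ A := by
      rw [← Real.log_pow]
      refine (Real.log_le_log (pow_pos hx0 l) h3).trans (le_of_eq ?_)
      rw [Real.log_mul hc0.ne' (by positivity), Real.log_pow]
      push_cast
      rfl
    rw [le_div_iff₀ hl0]
    linarith
  -- lower bound for the later values
  have hlow : ∀ j : ℕ, (b : ℝ) ^ (2 * j) * (1 - j * (A / l)) * c l ≤ c (l + j) := by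
    intro j
    have h3 : R ^ j * c l ≤ c (l + j) := P5c_le_of_ratio hc hconv hR0.le le_rfl j
    refine le_trans (mul_le_mul_of_nonneg_right ?_ hcl.le) h3
    have h4 : R ^ j = (b : ℝ) ^ (2 * j) * Real.exp (-(j * Real.log x)) := by
      rw [Real.exp_neg, Real.exp_nat_mul, Real.exp_log hx0, pow_mul, ← hxR, mul_pow]
      field_simp
    rw [h4]
    refine mul_le_mul_of_nonneg_left ?_ (by positivity)
    have h5 := Real.one_sub_le_exp_neg (j * Real.log x)
    have h6 : (j : ℝ) * Real.log x ≤ j * (A / l) := mul_le_mul_of_nonneg_left hlogx (by positivity)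
    linarith
  -- the sum of the losses
  have hQk : Q ^ k0 ≤ l := Nat.pow_log_le_self Q (by omega)
  have hloss := small_loss (b := b) (s := s) (c0 := c 0) (d := d) hb hs (l := l) (k0 := k0)
    (by omega) hl1 hQk (hc 0)
  have hsum := h k0 l
  have h3 : ((c l + ∑ k ∈ Finset.range k0, c (l + s * (k + 1)) : ℕ) : ℝ) ≤
      ((a l + ∑ k ∈ Finset.range k0, (b ^ (2 * s * (k + 1)) - 1) * c l : ℕ) : ℝ) := by
    exact_mod_cast hsum
  push_cast at h3
  have h4 : ∀ k, (((b ^ (2 * s * (k + 1)) - 1 : ℕ)) : ℝ) = (b : ℝ) ^ (2 * s * (k + 1)) - 1 := by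
    intro k
    rw [Nat.cast_sub (Nat.one_le_pow _ _ hb), Nat.cast_pow, Nat.cast_one]
  simp only [h4] at h3
  have h5 : ∀ k ∈ Finset.range k0, ((b : ℝ) ^ (2 * s * (k + 1)) - 1) * c l + (1 / 2) * c l ≤
      c (l + s * (k + 1)) := by
    intro k hk
    have hkk : k + 1 ≤ k0 := Finset.mem_range.1 hk
    have h6 := hlow (s * (k + 1))
    have h7 : (b : ℝ) ^ (2 * s * (k + 1)) * (((s * (k + 1) : ℕ) : ℝ) * (A / l)) ≤ 1 / 2 := by
      refine le_trans ?_ hloss
      have h8 : (b : ℝ) ^ (2 * s * (k + 1)) ≤ (b : ℝ) ^ (2 * s * k0) :=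
        pow_le_pow_right₀ (by exact_mod_cast hb) (Nat.mul_le_mul_left _ hkk)
      have h9 : ((s * (k + 1) : ℕ) : ℝ) ≤ s * k0 := by
        exact_mod_cast Nat.mul_le_mul_left s hkk
      have h10 : 0 ≤ A / l := by positivity
      exact mul_le_mul h8 (mul_le_mul_of_nonneg_right h9 h10) (by positivity) (by positivity)
    have h8 : (b : ℝ) ^ (2 * (s * (k + 1))) = (b : ℝ) ^ (2 * s * (k + 1)) := by
      rw [mul_assoc]
    rw [h8] at h6
    refine le_trans ?_ h6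
    nlinarith [mul_le_mul_of_nonneg_right h7 hcl.le]
  have h6 : ∑ k ∈ Finset.range k0, (((b : ℝ) ^ (2 * s * (k + 1)) - 1) * c l + (1 / 2) * c l) ≤
      ∑ k ∈ Finset.range k0, (c (l + s * (k + 1)) : ℝ) := Finset.sum_le_sum h5
  rw [Finset.sum_add_distrib, Finset.sum_const, Finset.card_range, nsmul_eq_mul] at h6
  have h7 : (c l : ℝ) * (k0 + 1) ≤ 2 * a l := by nlinarith
  exact_mod_cast h7

end Pool.Agent.Helper50.ZP
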